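import Mathlib
import Pool.Agent.V117.SymbPow

namespace Pool.Agent.Results.MP_2a0133_al.NotUnimodal

open MvPolynomial Pool.Agent.V117

/-- A simplicial complex on the vertex set `{0, …, n-1}`. -/
structure SComplex (n : ℕ) where
  faces : Finset (Finset (Fin n))
  down : ∀ F ∈ faces, ∀ G, G ⊆ F → G ∈ faces
  vert : ∀ v, {v} ∈ faces

/-- `Δ` has dimension `d`. -/
def SComplex.IsDim {n : ℕ} (Δ : SComplex n) (d : ℕ) : Prop :=
  (∃ F ∈ Δ.faces, F.card = d + 1) ∧ ∀ F ∈ Δ.faces, F.card ≤ d + 1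

/-- The `i`-dimensional faces of `Δ`, i.e. the facets of `Δ^[i]`. -/
def SComplex.iFaces {n : ℕ} (Δ : SComplex n) (i : ℕ) : Set (Finset (Fin n)) :=
  {F | F ∈ Δ.faces ∧ F.card = i + 1}

/-- The facet ideal of `Δ^[i]`. -/
noncomputable def facetIdeal (K : Type) [Field K] {n : ℕ} (Δ : SComplex n) (i : ℕ) :
    Ideal (MvPolynomial (Fin n) K) :=
  Ideal.span {f | ∃ F ∈ Δ.iFaces i, f = ∏ v ∈ F, X v}

/-- The coefficient `a_i = sdefect (F(Δ^[i]), m)` of the symbolic defect polynomial `μ_m(Δ,t)`. -/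
noncomputable def coeffMu (K : Type) [Field K] {n : ℕ} (Δ : SComplex n) (m i : ℕ) : ℕ :=
  sdefect (facetIdeal K Δ i) m

/-- The sequence `a 1, …, a p` is unimodal. -/
def IsUnimodal (a : ℕ → ℕ) (p : ℕ) : Prop :=
  ∃ k, 1 ≤ k ∧ k ≤ p ∧ (∀ i j, 1 ≤ i → i ≤ j → j ≤ k → a i ≤ a j) ∧
    (∀ i j, k ≤ i → i ≤ j → j ≤ p → a j ≤ a i)

/-- Asymptotic quasi-unimodality of the symbolic defect polynomials of a complex of
dimension `d`. -/
def AsymptoticallyQuasiUnimodal (K : Type) [Field K] {n : ℕ} (Δ : SComplex n) (d : ℕ) : Prop :=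
  ∃ k, 1 ≤ k ∧ ∃ L, ∀ l, L ≤ l → k ∣ l → IsUnimodal (coeffMu K Δ l) (d - 1)

/-! ### The complex -/

def c1 (F : Finset (Fin 8)) : ℕ := (F.filter (fun i => i < 4)).card
def c2 (F : Finset (Fin 8)) : ℕ := (F.filter (fun i => ¬ i < 4)).card

lemma card_eq (F : Finset (Fin 8)) : F.card = c1 F + c2 F :=
  (Finset.card_filter_add_card_filter_not _).symm

lemma c1_mono {F G : Finset (Fin 8)} (h : G ⊆ F) : c1 G ≤ c1 F :=
  Finset.card_le_card (Finset.filter_subset_filter _ h)

lemma c2_mono {F G : Finset (Fin 8)} (h : G ⊆ F) : c2 G ≤ c2 F :=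
  Finset.card_le_card (Finset.filter_subset_filter _ h)

/-- the face condition -/
def isF (F : Finset (Fin 8)) : Prop := c1 F + c2 F ≤ 3 ∨ (c1 F + c2 F = 4 ∧ 1 ≤ c1 F ∧ 1 ≤ c2 F) ∨
  (c1 F + c2 F = 5 ∧ 2 ≤ c1 F ∧ 2 ≤ c2 F)

instance : DecidablePred isF := fun F => by unfold isF; infer_instance

/-- The complex: all sets with at most three elements, all 4-sets meeting both halves and all
5-sets with at least two elements in each half of an 8-element set. -/
def Δ0 : SComplex 8 where
  faces := Finset.univ.filter isF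
  down := by
    intro F hF G hG
    rw [Finset.mem_filter] at hF ⊢
    refine ⟨Finset.mem_univ _, ?_⟩
    have h1 := c1_mono hG
    have h2 := c2_mono hG
    have h3 := hF.2
    unfold isF at *
    omega
  vert := by
    intro v
    rw [Finset.mem_filter]
    refine ⟨Finset.mem_univ _, Or.inl ?_⟩
    rw [← card_eq, Finset.card_singleton]
    norm_num

lemma mem_iFaces (i : ℕ) (F : Finset (Fin 8)) : F ∈ Δ0.iFaces i ↔ isF F ∧ F.card = i + 1 := by
  show F ∈ Finset.univ.filter isF ∧ _ ↔ _
  rw [Finset.mem_filter]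
  simp

lemma dim4 : Δ0.IsDim 4 := by
  constructor
  · refine ⟨{0, 1, 4, 5, 6}, ?_, by decide⟩
    show _ ∈ Finset.univ.filter isF
    rw [Finset.mem_filter]
    refine ⟨Finset.mem_univ _, ?_⟩
    decide
  · intro F hF
    have hF' : F ∈ Finset.univ.filter isF := hF
    rw [Finset.mem_filter] at hF'
    rw [card_eq]
    have := hF'.2
    unfold isF at this
    omega

/-- the exponent set of the symbolic power -/
def PS (i m : ℕ) : Set (Fin 8 →₀ ℕ) := {x | ∀ C, IsCov (Δ0.iFaces i) C → m ≤ ∑ j ∈ C, x j}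

lemma isUpperSet_PS (i m : ℕ) : IsUpperSet (PS i m) :=
  fun _ _ hab ha C hC => (ha C hC).trans (Finset.sum_le_sum fun j _ => hab j)

lemma symb_eq (K : Type) [Field K] (i m : ℕ) :
    symbolicPower (facetIdeal K Δ0 i) m = upIdeal K (PS i m) := symbolicPower_eq _ _

/-- covers for i ≤ 2 -/
lemma cov_compl_card {i : ℕ} (hi : i ≤ 2) {C : Finset (Fin 8)} (hC : IsCov (Δ0.iFaces i) C) :
    Cᶜ.card ≤ i := by
  by_contra hcon
  push Not at hcon
  obtain ⟨F, hF, hcard⟩ := Finset.exists_subset_card_eq hcon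
  obtain ⟨v, hv, hvC⟩ := hC F (by
    rw [mem_iFaces]
    refine ⟨Or.inl ?_, hcard⟩
    rw [← card_eq]; omega)
  have := hF hv
  rw [Finset.mem_compl] at this
  exact this hvC

lemma cov_of_compl_card {i : ℕ} {C : Finset (Fin 8)} (h : Cᶜ.card ≤ i) :
    IsCov (Δ0.iFaces i) C := by
  intro F hF
  rw [mem_iFaces] at hF
  by_contra hcon
  push Not at hcon
  have : F ⊆ Cᶜ := fun v hv => by rw [Finset.mem_compl]; exact hcon v hv
  have := Finset.card_le_card this
  omega

lemma sum_compl (x : Fin 8 →₀ ℕ) (C : Finset (Fin 8)) :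
    ∑ j ∈ C, x j + ∑ j ∈ Cᶜ, x j = ∑ j, x j := Finset.sum_add_sum_compl C _

/-- tight covers force equality -/
lemma tight {x b : Fin 8 →₀ ℕ} {C : Finset (Fin 8)} {m : ℕ} (hx : ∑ j ∈ C, x j = m)
    (hb : m ≤ ∑ j ∈ C, b j) (hle : b ≤ x) : ∀ j ∈ C, b j = x j := by
  intro j hj
  by_contra hne
  have : ∑ j ∈ C, b j < ∑ j ∈ C, x j :=
    Finset.sum_lt_sum (fun i _ => hle i) ⟨j, hj, lt_of_le_of_ne (hle j) hne⟩
  omega

lemma min_of_tight {i m : ℕ} {x : Fin 8 →₀ ℕ} {C C' : Finset (Fin 8)}
    (hC : IsCov (Δ0.iFaces i) C) (hC' : IsCov (Δ0.iFaces i) C') (hu : ∀ j, j ∈ C ∨ j ∈ C')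
    (hx : ∑ j ∈ C, x j = m) (hx' : ∑ j ∈ C', x j = m) :
    ∀ b ∈ PS i m, b ≤ x → b = x := by
  intro b hb hle
  ext j
  rcases hu j with hj | hj
  · exact tight hx (hb C hC) hle j hj
  · exact tight hx' (hb C' hC') hle j hj

lemma faces_card_le (i : ℕ) : ∀ F ∈ Δ0.iFaces i, i + 1 ≤ F.card := by
  intro F hF
  rw [mem_iFaces] at hF
  omega

noncomputable def toExp (f : Fin 8 → ℕ) : Fin 8 →₀ ℕ := Finsupp.equivFunOnFinite.symm f

lemma toExp_apply (f : Fin 8 → ℕ) (i : Fin 8) : toExp f i = f i := rfl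

lemma toExp_inj : Function.Injective toExp := Finsupp.equivFunOnFinite.symm.injective

/-! ### lower bound for `a_1` -/

theorem lower1 (K : Type) [Field K] (m : ℕ) : (m / 7) ^ 6 ≤ coeffMu K Δ0 m 1 := by
  classical
  let S : (Fin 6 → Fin (m / 7)) → ℕ := fun f => ∑ i, ((f i : ℕ) + 1)
  let ex : (Fin 6 → Fin (m / 7)) → (Fin 8 →₀ ℕ) := fun f => toExp
    ![m - S f, m - S f, f 0 + 1, f 1 + 1, f 2 + 1, f 3 + 1, f 4 + 1, f 5 + 1]
  have hinj : Function.Injective ex := by
    intro f g h
    have h1 := toExp_inj h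
    funext i
    apply Fin.ext
    have h2 := congrFun h1 2
    have h3 := congrFun h1 3
    have h4 := congrFun h1 4
    have h5 := congrFun h1 5
    have h6 := congrFun h1 6
    have h7 := congrFun h1 7
    simp at h2 h3 h4 h5 h6 h7
    fin_cases i
    · exact h2
    · exact h3
    · exact h4
    · exact h5
    · exact h6
    · exact h7
  have hcard : (Finset.univ.image ex).card = (m / 7) ^ 6 := by
    rw [Finset.card_image_of_injective _ hinj, Finset.card_univ, Fintype.card_pi]
    simp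
  rw [← hcard]
  have hS : ∀ f : Fin 6 → Fin (m / 7), S f = (f 0 : ℕ) + f 1 + f 2 + f 3 + f 4 + f 5 + 6 := by
    intro f
    simp only [S, Fin.sum_univ_six]
    ring
  have hb : ∀ (f : Fin 6 → Fin (m / 7)) (i : Fin 6), (f i : ℕ) + 1 ≤ m / 7 := fun f i => (f i).2
  have htot : ∀ f, ∑ j, (ex f) j = 2 * (m - S f) + S f := by
    intro f
    simp only [ex, toExp_apply, Fin.sum_univ_eight]
    simp
    rw [hS]
    ring
  have h7 : 7 * (m / 7) ≤ m := Nat.mul_div_le m 7
  have hSle : ∀ f, S f ≤ 6 * (m / 7) := by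
    intro f
    rw [hS]
    have := hb f 0; have := hb f 1; have := hb f 2; have := hb f 3; have := hb f 4; have := hb f 5
    omega
  have hSpos : ∀ f, 6 ≤ S f := by
    intro f
    rw [hS]; omega
  have hle : ∀ f j, (ex f) j ≤ m - S f := by
    intro f j
    have := hb f 0; have := hb f 1; have := hb f 2; have := hb f 3; have := hb f 4; have := hb f 5
    have := hSle f
    simp only [ex, toExp_apply]
    fin_cases j <;> simp <;> omega
  apply le_sdefect' (isUpperSet_PS 1 m) (symb_eq K 1 m)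
  · intro e he
    obtain ⟨f, -, rfl⟩ := Finset.mem_image.mp he
    intro C hC
    have h1 := cov_compl_card (by norm_num) hC
    have h2 : ∑ j ∈ Cᶜ, (ex f) j ≤ Cᶜ.card • (m - S f) := Finset.sum_le_card_nsmul _ _ _ (fun j _ => hle f j)
    have h3 : Cᶜ.card • (m - S f) ≤ m - S f := by
      rw [smul_eq_mul]
      calc Cᶜ.card * (m - S f) ≤ 1 * (m - S f) := Nat.mul_le_mul_right _ h1
        _ = m - S f := one_mul _
    have h4 := sum_compl (ex f) C
    have h5 := htot f
    have := hSle f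
    omega
  · intro e he
    obtain ⟨f, -, rfl⟩ := Finset.mem_image.mp he
    have := hSle f
    have h5 := htot f
    have hc : ∀ p : Fin 8, p < 2 → ∑ j ∈ Finset.univ.erase p, (ex f) j = m := by
      intro p hp
      have h1 := Finset.add_sum_erase Finset.univ (fun j => (ex f) j) (Finset.mem_univ p)
      have h2 : (ex f) p = m - S f := by
        simp only [ex, toExp_apply]
        fin_cases p
        · rfl
        · rfl
        all_goals exact absurd hp (by decide)
      omega
    have hcov : ∀ p : Fin 8, IsCov (Δ0.iFaces 1) (Finset.univ.erase p) := by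
      intro p
      apply cov_of_compl_card
      rw [Finset.card_compl, Finset.card_erase_of_mem (Finset.mem_univ _)]
      simp
    refine min_of_tight (hcov 0) (hcov 1) ?_ (hc 0 (by decide)) (hc 1 (by decide))
    intro j
    by_cases h : j = 0
    · right; subst h; decide
    · left; exact Finset.mem_erase.mpr ⟨h, Finset.mem_univ _⟩
  · intro e he f hf
    obtain ⟨g, -, rfl⟩ := Finset.mem_image.mp he
    refine coeff_pow_eq_zero (faces_card_le 1) ?_ hf
    have := hSle g
    have := hSpos g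
    have h5 := htot g
    omega

/-! ### upper bound for `a_2` -/

lemma mem_PS2 (m : ℕ) (x : Fin 8 →₀ ℕ) :
    x ∈ PS 2 m ↔ ∀ a b, a ≠ b → m + x a + x b ≤ ∑ j, x j := by
  constructor
  · intro h a b hab
    have hcov : IsCov (Δ0.iFaces 2) ({a, b} : Finset (Fin 8))ᶜ := by
      apply cov_of_compl_card
      rw [compl_compl, Finset.card_pair hab]
    have h1 := h _ hcov
    have h2 := sum_compl x ({a, b} : Finset (Fin 8))ᶜ
    rw [compl_compl, Finset.sum_pair hab] at h2
    omega
  · intro h C hC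
    have h1 := cov_compl_card le_rfl hC
    obtain ⟨D, hD, -, hcard⟩ := Finset.exists_subsuperset_card_eq (Finset.subset_univ Cᶜ) h1
      (by simp)
    obtain ⟨a, b, hab, rfl⟩ := Finset.card_eq_two.mp hcard
    have h2 : ∑ j ∈ Cᶜ, x j ≤ x a + x b := by
      rw [← Finset.sum_pair hab]
      exact Finset.sum_le_sum_of_subset hD
    have h3 := sum_compl x C
    have h4 := h a b hab
    omega

/-- the exponents with the three equal largest entries at `p, q, r` -/
noncomputable def E2 (m : ℕ) (p q r : Fin 8) : Finset (Fin 8 →₀ ℕ) :=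
  (Fintype.piFinset (fun i => if i = p ∨ i = q ∨ i = r then {0} else Finset.range (m + 1))).image
    (fun f => toExp (fun i => if i = p ∨ i = q ∨ i = r then m - ∑ j, f j else f i))

lemma E2_card (m : ℕ) {p q r : Fin 8} (h : p ≠ q ∧ p ≠ r ∧ q ≠ r) :
    (E2 m p q r).card ≤ (m + 1) ^ 5 := by
  classical
  refine Finset.card_image_le.trans ?_
  rw [Fintype.card_piFinset]
  have h1 : ∀ i : Fin 8, (if i = p ∨ i = q ∨ i = r then ({0} : Finset ℕ) else Finset.range (m + 1)).card
      = if i = p ∨ i = q ∨ i = r then 1 else m + 1 := by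
    intro i
    split_ifs <;> simp
  simp only [h1]
  rw [Finset.prod_ite, Finset.prod_const_one, one_mul, Finset.prod_const]
  apply le_of_eq
  congr 1
  clear h1
  revert h
  revert p q r
  decide

lemma mem_E2 {m : ℕ} {p q r : Fin 8} (h : p ≠ q ∧ p ≠ r ∧ q ≠ r) {e : Fin 8 →₀ ℕ}
    (hpq : e p = e q) (hpr : e p = e r) (hs : ∑ j, e j = m + 2 * e p) : e ∈ E2 m p q r := by
  classical
  have key : ∀ j, e j = (if j = p ∨ j = q ∨ j = r then 0 else e j) + (if j = p then e p else 0) +
      (if j = q then e p else 0) + (if j = r then e p else 0) := by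
    intro j
    by_cases h1 : j = p
    · subst h1; simp [h.1, h.2.1]
    · by_cases h2 : j = q
      · subst h2; simp [h1, h.2.2, hpq]
      · by_cases h3 : j = r
        · subst h3; simp [h1, h2, hpr]
        · simp [h1, h2, h3]
  have hsum : ∑ j, e j = ∑ j, (if j = p ∨ j = q ∨ j = r then 0 else e j) + e p + e p + e p := by
    conv_lhs => rw [Finset.sum_congr rfl (fun j _ => key j)]
    rw [Finset.sum_add_distrib, Finset.sum_add_distrib, Finset.sum_add_distrib,
      Finset.sum_ite_eq' Finset.univ p, Finset.sum_ite_eq' Finset.univ q,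
      Finset.sum_ite_eq' Finset.univ r]
    simp
  refine Finset.mem_image.mpr ⟨fun j => if j = p ∨ j = q ∨ j = r then 0 else e j, ?_, ?_⟩
  · rw [Fintype.mem_piFinset]
    intro i
    by_cases hi : i = p ∨ i = q ∨ i = r
    · simp [hi]
    · simp only [hi, if_false, Finset.mem_range]
      have : (if i = p ∨ i = q ∨ i = r then 0 else e i) ≤
          ∑ j, (if j = p ∨ j = q ∨ j = r then 0 else e j) :=
        Finset.single_le_sum (f := fun j => if j = p ∨ j = q ∨ j = r then 0 else e j)
          (fun _ _ => Nat.zero_le _) (Finset.mem_univ i)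
      rw [if_neg hi] at this
      omega
  · ext i
    rw [toExp_apply]
    by_cases hi : i = p ∨ i = q ∨ i = r
    · rw [if_pos hi]
      have h4 : e i = e p := by rcases hi with rfl | rfl | rfl <;> omega
      show m - ∑ j, (if j = p ∨ j = q ∨ j = r then 0 else e j) = e i
      omega
    · rw [if_neg hi]
      show (if i = p ∨ i = q ∨ i = r then 0 else e i) = e i
      rw [if_neg hi]

lemma dec_mem {m : ℕ} {e : Fin 8 →₀ ℕ} {p : Fin 8} (hp : 1 ≤ e p)
    (h : ∀ a b, a ≠ b → m + (e a - if a = p then 1 else 0) + (e b - if b = p then 1 else 0) + 1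
      ≤ ∑ j, e j) :
    (e - Finsupp.single p 1) ∈ PS 2 m := by
  rw [mem_PS2]
  intro a b hab
  have h1 : ∑ j, (e - Finsupp.single p 1 + Finsupp.single p 1 : Fin 8 →₀ ℕ) j = ∑ j, e j := by
    rw [tsub_add_cancel_of_le]
    exact Finsupp.single_le_iff.mpr hp
  simp only [Finsupp.add_apply, Finset.sum_add_distrib] at h1
  have h2 : ∑ j, (Finsupp.single p 1 : Fin 8 →₀ ℕ) j = 1 := by
    rw [Finset.sum_eq_single p]
    · simp
    · intro b _ hb
      rw [Finsupp.single_apply, if_neg (Ne.symm hb)]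
    · intro h; exact absurd (Finset.mem_univ _) h
  have h3 : ∀ a, (e - Finsupp.single p 1 : Fin 8 →₀ ℕ) a = e a - if a = p then 1 else 0 := by
    intro a
    rw [Finsupp.tsub_apply, Finsupp.single_apply]
    by_cases h : p = a
    · subst h; simp
    · rw [if_neg h, if_neg (Ne.symm h)]
  have h4 := h a b hab
  rw [h3 a, h3 b]
  omega

theorem upper2 (K : Type) [Field K] (m : ℕ) : coeffMu K Δ0 m 2 ≤ 512 * (m + 1) ^ 5 := by
  classical
  let Idx : Finset (Fin 8 × Fin 8 × Fin 8) :=
    Finset.univ.filter (fun t => t.1 ≠ t.2.1 ∧ t.1 ≠ t.2.2 ∧ t.2.1 ≠ t.2.2)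
  let E : Finset (Fin 8 →₀ ℕ) := Idx.biUnion (fun t => E2 m t.1 t.2.1 t.2.2)
  have hE : E.card ≤ 512 * (m + 1) ^ 5 := by
    refine (Finset.card_biUnion_le_card_mul Idx _ ((m + 1) ^ 5) ?_).trans ?_
    · intro t ht
      exact E2_card m (Finset.mem_filter.mp ht).2
    · apply Nat.mul_le_mul_right
      refine (Finset.card_le_card (Finset.filter_subset _ _)).trans ?_
      simp
  refine le_trans (sdefect_le' (symb_eq K 2 m) E ?_) hE
  intro x hx
  obtain ⟨e, ⟨he1, he2⟩, he3⟩ := WellFounded.has_min (wellFounded_lt (α := Fin 8 →₀ ℕ))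
    {y | y ∈ PS 2 m ∧ y ≤ x} ⟨x, hx, le_rfl⟩
  refine ⟨e, ?_, he1, he2⟩
  have hmin : ∀ p, 1 ≤ e p → ¬ (∀ a b, a ≠ b → m + (e a - if a = p then 1 else 0) +
      (e b - if b = p then 1 else 0) + 1 ≤ ∑ j, e j) := by
    intro p hp hcon
    have h1 := dec_mem hp hcon
    refine he3 _ ⟨h1, le_trans tsub_le_self he2⟩ ?_
    refine lt_of_le_of_ne tsub_le_self ?_
    intro h
    have h2 := DFunLike.congr_fun h p
    rw [Finsupp.tsub_apply, Finsupp.single_eq_same] at h2
    omega
  have he1' := (mem_PS2 m e).mp he1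
  obtain ⟨p, -, hp⟩ := Finset.exists_max_image Finset.univ (fun i => e i) ⟨0, Finset.mem_univ _⟩
  obtain ⟨q, hq1, hq⟩ := Finset.exists_max_image (Finset.univ.erase p) (fun i => e i) (by
    rw [← Finset.card_pos, Finset.card_erase_of_mem (Finset.mem_univ _)]; simp)
  have hqp : q ≠ p := (Finset.mem_erase.mp hq1).1
  obtain ⟨r, hr1, hr⟩ := Finset.exists_max_image ((Finset.univ.erase p).erase q) (fun i => e i) (by
    rw [← Finset.card_pos, Finset.card_erase_of_mem hq1,
      Finset.card_erase_of_mem (Finset.mem_univ _)]; simp)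
  have hrq : r ≠ q := (Finset.mem_erase.mp hr1).1
  have hrp : r ≠ p := (Finset.mem_erase.mp (Finset.mem_erase.mp hr1).2).1
  have hqle : ∀ a, a ≠ p → e a ≤ e q := fun a ha => hq a (Finset.mem_erase.mpr ⟨ha, Finset.mem_univ _⟩)
  have hrle : ∀ a, a ≠ p → a ≠ q → e a ≤ e r := fun a ha ha' =>
    hr a (Finset.mem_erase.mpr ⟨ha', Finset.mem_erase.mpr ⟨ha, Finset.mem_univ _⟩⟩)
  have hple : ∀ a, e a ≤ e p := fun a => hp a (Finset.mem_univ _)
  have h1 : e r = e p := by
    by_contra hne
    have hlt : e r < e p := lt_of_le_of_ne (hple r) hne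
    apply hmin p (by omega)
    intro a b hab
    have hpq' := he1' p q hqp.symm
    have hqr := hqle r hrp
    by_cases ha : a = p
    · subst ha
      have hb : b ≠ a := Ne.symm hab
      have := he1' a b hab
      rw [if_pos rfl, if_neg hb]
      omega
    · by_cases hb : b = p
      · subst hb
        have := he1' a b hab
        rw [if_pos rfl, if_neg ha]
        omega
      · rw [if_neg ha, if_neg hb]
        have h5 := hqle a ha
        have h6 := hqle b hb
        by_cases haq : a = q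
        · have h7 := hrle b hb (fun h => hab (haq.trans h.symm))
          omega
        · have h7 := hrle a ha haq
          omega
  have h2 : e q = e p := by
    have := hqle r hrp
    have := hple q
    omega
  have h3 : ∑ j, e j = m + 2 * e p := by
    have h4 := he1' p q hqp.symm
    by_contra hne
    have hpos : 1 ≤ e p := by
      by_contra h0
      have h0' : e p = 0 := by omega
      have : ∑ j, e j = 0 := Finset.sum_eq_zero (fun j _ => by have := hple j; omega)
      omega
    apply hmin p hpos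
    intro a b hab
    have h5 := hple a
    have h6 := hple b
    omega
  refine Finset.mem_biUnion.mpr ⟨(p, q, r), ?_, mem_E2 ⟨hqp.symm, hrp.symm, hrq.symm⟩ h2.symm h1.symm h3⟩
  exact Finset.mem_filter.mpr ⟨Finset.mem_univ _, hqp.symm, hrp.symm, hrq.symm⟩

/-! ### lower bound for `a_3` -/

def V1 : Finset (Fin 8) := {0, 1, 2, 3}
def V2 : Finset (Fin 8) := {4, 5, 6, 7}

lemma four_set {F : Finset (Fin 8)} (h : F.card = 4) (hF : ¬ isF F) : F = V1 ∨ F = V2 := by
  revert F
  decide +kernel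

lemma cov3 {C : Finset (Fin 8)} (hC : IsCov (Δ0.iFaces 3) C) :
    Cᶜ.card ≤ 3 ∨ C = V1 ∨ C = V2 := by
  by_contra hcon
  push Not at hcon
  obtain ⟨h1, h2, h3⟩ := hcon
  have hno : ∀ F : Finset (Fin 8), F ⊆ Cᶜ → F.card = 4 → F = V1 ∨ F = V2 := by
    intro F hF hcard
    apply four_set hcard
    intro hisF
    obtain ⟨v, hv, hvC⟩ := hC F (by rw [mem_iFaces]; exact ⟨hisF, hcard⟩)
    have := hF hv
    rw [Finset.mem_compl] at this
    exact this hvC
  obtain ⟨F, hF, hcard⟩ := Finset.exists_subset_card_eq (show 4 ≤ Cᶜ.card by omega)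
  have hFF := hno F hF hcard
  have hV : V1ᶜ = V2 := by decide
  by_cases hFC : F = Cᶜ
  · have hC' : C = Fᶜ := by rw [hFC, compl_compl]
    rcases hFF with h | h
    · apply h3
      rw [hC', h, hV]
    · apply h2
      rw [hC', h, ← hV, compl_compl]
  · obtain ⟨v, hv, hvF⟩ := Finset.exists_of_ssubset (lt_of_le_of_ne hF hFC : F ⊂ Cᶜ)
    obtain ⟨u, hu⟩ : F.Nonempty := by rw [← Finset.card_pos]; omega
    have hcard' : (insert v (F.erase u)).card = 4 := by
      rw [Finset.card_insert_of_notMem, Finset.card_erase_of_mem hu, hcard]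
      intro h
      exact hvF (Finset.mem_of_mem_erase h)
    have hsub : insert v (F.erase u) ⊆ Cᶜ := by
      intro w hw
      rcases Finset.mem_insert.mp hw with rfl | hw
      · exact hv
      · exact hF (Finset.mem_of_mem_erase hw)
    have h5 := hno _ hsub hcard'
    -- `F` and the new set share an element and differ
    obtain ⟨w, hw⟩ : (F.erase u).Nonempty := by
      rw [← Finset.card_pos, Finset.card_erase_of_mem hu]; omega
    have hwF : w ∈ F := Finset.mem_of_mem_erase hw
    have hw' : w ∈ insert v (F.erase u) := Finset.mem_insert_of_mem hw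
    have hv' : v ∈ insert v (F.erase u) := Finset.mem_insert_self _ _
    have hdis : ∀ w, w ∈ V1 → w ∈ V2 → False := by decide
    rcases hFF with h | h <;> rcases h5 with h' | h'
    · rw [h'] at hv'; rw [h] at hvF; exact hvF hv'
    · rw [h'] at hw'; rw [h] at hwF; exact hdis w hwF hw'
    · rw [h'] at hw'; rw [h] at hwF; exact hdis w hw' hwF
    · rw [h'] at hv'; rw [h] at hvF; exact hvF hv'

lemma covV1 : IsCov (Δ0.iFaces 3) V1 := by
  intro F hF
  rw [mem_iFaces] at hF
  by_contra hcon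
  push Not at hcon
  have h1 : c1 F = 0 := by
    unfold c1
    rw [Finset.card_eq_zero, Finset.filter_eq_empty_iff]
    intro v hv hlt
    apply hcon v hv
    clear hv
    revert v
    decide
  have h2 := hF.1
  have h3 := card_eq F
  unfold isF at h2
  omega

lemma covV2 : IsCov (Δ0.iFaces 3) V2 := by
  intro F hF
  rw [mem_iFaces] at hF
  by_contra hcon
  push Not at hcon
  have h1 : c2 F = 0 := by
    unfold c2
    rw [Finset.card_eq_zero, Finset.filter_eq_empty_iff]
    intro v hv hlt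
    apply hcon v hv
    clear hv
    revert v
    decide
  have h2 := hF.1
  have h3 := card_eq F
  unfold isF at h2
  omega

theorem lower3 (K : Type) [Field K] (m : ℕ) (hm : 27 ≤ m) :
    (m / 60 + 1) ^ 6 ≤ coeffMu K Δ0 m 3 := by
  classical
  let q := m / 4
  let ex : (Fin 6 → Fin (m / 60 + 1)) → (Fin 8 →₀ ℕ) := fun g => toExp
    ![q + g 0, q + g 1, q + g 2, m - (3 * q + g 0 + g 1 + g 2),
      q + g 3, q + g 4, q + g 5, m - (3 * q + g 3 + g 4 + g 5)]
  have hinj : Function.Injective ex := by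
    intro f g h
    have h1 := toExp_inj h
    funext i
    apply Fin.ext
    have h2 := congrFun h1 0
    have h3 := congrFun h1 1
    have h4 := congrFun h1 2
    have h5 := congrFun h1 4
    have h6 := congrFun h1 5
    have h7 := congrFun h1 6
    simp at h2 h3 h4 h5 h6 h7
    fin_cases i
    · exact h2
    · exact h3
    · exact h4
    · exact h5
    · exact h6
    · exact h7
  have hcard : (Finset.univ.image ex).card = (m / 60 + 1) ^ 6 := by
    rw [Finset.card_image_of_injective _ hinj, Finset.card_univ, Fintype.card_pi]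
    simp
  rw [← hcard]
  have hb : ∀ (f : Fin 6 → Fin (m / 60 + 1)) (i : Fin 6), (f i : ℕ) ≤ m / 60 :=
    fun f i => Nat.lt_succ_iff.mp (f i).2
  have hq : 4 * q ≤ m := Nat.mul_div_le m 4
  have hq' : m < 4 * q + 4 := by
    have := Nat.lt_div_mul_add (a := m) (b := 4) (by norm_num)
    show m < 4 * (m / 4) + 4
    omega
  have h60 : 60 * (m / 60) ≤ m := Nat.mul_div_le m 60
  have hle : ∀ f j, 3 * (ex f) j ≤ m := by
    intro f j
    have := hb f 0; have := hb f 1; have := hb f 2; have := hb f 3; have := hb f 4; have := hb f 5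
    simp only [ex, toExp_apply]
    fin_cases j <;> simp <;> omega
  have hV1 : ∀ f, ∑ j ∈ V1, (ex f) j = m := by
    intro f
    have := hb f 0; have := hb f 1; have := hb f 2; have := hb f 3; have := hb f 4; have := hb f 5
    have h1 : ∑ j ∈ V1, (ex f) j = (ex f) 0 + ((ex f) 1 + ((ex f) 2 + (ex f) 3)) := by
      rw [V1, Finset.sum_insert (by decide), Finset.sum_insert (by decide),
        Finset.sum_insert (by decide), Finset.sum_singleton]
    rw [h1]
    simp only [ex, toExp_apply]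
    simp
    omega
  have hV2 : ∀ f, ∑ j ∈ V2, (ex f) j = m := by
    intro f
    have := hb f 0; have := hb f 1; have := hb f 2; have := hb f 3; have := hb f 4; have := hb f 5
    have h1 : ∑ j ∈ V2, (ex f) j = (ex f) 4 + ((ex f) 5 + ((ex f) 6 + (ex f) 7)) := by
      rw [V2, Finset.sum_insert (by decide), Finset.sum_insert (by decide),
        Finset.sum_insert (by decide), Finset.sum_singleton]
    rw [h1]
    simp only [ex, toExp_apply]
    simp
    omega
  have htot : ∀ f, ∑ j, (ex f) j = 2 * m := by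
    intro f
    have h1 := sum_compl (ex f) V1
    have h2 : V1ᶜ = V2 := by decide
    rw [h2, hV1, hV2] at h1
    omega
  apply le_sdefect' (isUpperSet_PS 3 m) (symb_eq K 3 m)
  · intro e he
    obtain ⟨f, -, rfl⟩ := Finset.mem_image.mp he
    intro C hC
    rcases cov3 hC with h | rfl | rfl
    · have h2 : ∑ j ∈ Cᶜ, 3 * (ex f) j ≤ Cᶜ.card • m := Finset.sum_le_card_nsmul _ _ _ (fun j _ => hle f j)
      rw [← Finset.mul_sum, smul_eq_mul] at h2
      have h3 : Cᶜ.card * m ≤ 3 * m := Nat.mul_le_mul_right _ h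
      have h4 := sum_compl (ex f) C
      rw [htot] at h4
      omega
    · rw [hV1]
    · rw [hV2]
  · intro e he
    obtain ⟨f, -, rfl⟩ := Finset.mem_image.mp he
    refine min_of_tight covV1 covV2 ?_ (hV1 f) (hV2 f)
    decide
  · intro e he f hf
    obtain ⟨g, -, rfl⟩ := Finset.mem_image.mp he
    refine coeff_pow_eq_zero (faces_card_le 3) ?_ hf
    rw [htot]
    omega

/-- The symbolic defect polynomials of the complex `Δ0` are not asymptotically quasi-unimodal; in
fact `a_1 > a_2 < a_3` for all large `m`. -/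
theorem main (K : Type) [Field K] (m : ℕ) (hm : 60 * (512 * 60 ^ 5) ≤ m) :
    coeffMu K Δ0 m 2 < coeffMu K Δ0 m 1 ∧ coeffMu K Δ0 m 2 < coeffMu K Δ0 m 3 := by
  have h1 := lower1 K m
  have h2 := upper2 K m
  have h3 := lower3 K m (le_trans (by norm_num) hm)
  have hN : m + 1 ≤ 60 * (m / 60 + 1) := by
    have := Nat.lt_div_mul_add (a := m) (b := 60) (by norm_num)
    omega
  have hbig : 512 * 60 ^ 5 < m / 60 + 1 := by
    have : 512 * 60 ^ 5 ≤ m / 60 := (Nat.le_div_iff_mul_le (by norm_num)).mpr (by omega)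
    omega
  have h4 : 512 * (m + 1) ^ 5 < (m / 60 + 1) ^ 6 := by
    calc 512 * (m + 1) ^ 5 ≤ 512 * (60 * (m / 60 + 1)) ^ 5 :=
          Nat.mul_le_mul_left _ (Nat.pow_le_pow_left hN 5)
      _ = (512 * 60 ^ 5) * (m / 60 + 1) ^ 5 := by ring
      _ < (m / 60 + 1) * (m / 60 + 1) ^ 5 := Nat.mul_lt_mul_of_pos_right hbig (by positivity)
      _ = (m / 60 + 1) ^ 6 := by ring
  have h5 : m / 60 + 1 ≤ m / 7 := by
    have h60 : 60 * (m / 60) ≤ m := Nat.mul_div_le m 60
    refine (Nat.le_div_iff_mul_le (by norm_num)).mpr ?_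
    omega
  have h6 : (m / 60 + 1) ^ 6 ≤ (m / 7) ^ 6 := Nat.pow_le_pow_left h5 6
  exact ⟨by omega, by omega⟩

lemma not_unimodal {a : ℕ → ℕ} (h1 : a 2 < a 1) (h2 : a 2 < a 3) : ¬ IsUnimodal a 3 := by
  rintro ⟨k, hk1, hk2, hup, hdown⟩
  by_cases h : k = 1
  · subst h
    have := hdown 2 3 (by norm_num) (by norm_num) le_rfl
    omega
  · have := hup 1 2 le_rfl (by norm_num) (by omega)
    omega

/-- Negative answer: there is a simplicial complex of dimension four on eight vertices whose
symbolic defect polynomials are not asymptotically quasi-unimodal, over any field; moreover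
`a_1 > a_2 < a_3` for all sufficiently large `m`. -/
theorem result : ∃ Δ : SComplex 8, Δ.IsDim 4 ∧ ∀ (K : Type) [Field K],
    ¬ AsymptoticallyQuasiUnimodal K Δ 4 ∧
    ∃ M, ∀ m, M ≤ m → coeffMu K Δ m 2 < coeffMu K Δ m 1 ∧ coeffMu K Δ m 2 < coeffMu K Δ m 3 := by
  refine ⟨Δ0, dim4, ?_⟩
  intro K _
  have hM : ∃ M, ∀ m, M ≤ m → coeffMu K Δ0 m 2 < coeffMu K Δ0 m 1 ∧
      coeffMu K Δ0 m 2 < coeffMu K Δ0 m 3 := ⟨60 * (512 * 60 ^ 5), fun m hm => main K m hm⟩
  refine ⟨?_, hM⟩
  rintro ⟨k, hk, L, hL⟩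
  obtain ⟨M, hM⟩ := hM
  have h1 : L ≤ k * (L + M) := by nlinarith
  have h2 : M ≤ k * (L + M) := by nlinarith
  have h3 := hM _ h2
  exact not_unimodal h3.1 h3.2 (hL _ h1 (Dvd.intro _ rfl))

end Pool.Agent.Results.MP_2a0133_al.NotUnimodal
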